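import Pool.Agent.U513.AP.Cum
import Pool.Agent.Results.MP_f6e9a2_nt.AlmostAllPrimes

/-!
# Double sums of Legendre symbols over arbitrary sets, modulo all primes near the numerators and denominators of
Diophantine approximations

Let `α ∈ ℝ ^ d` and consider all its approximations `(k, u_1, …, u_d)` with `|k α_i - γ_i - u_i| ≤ k ^ (-τ)`; for `d = 1`, `γ = 0`,
`τ = 1` these contain the denominators and numerators of all the convergents of the continued fraction of `α`, for `τ = 1 / d` all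
the best simultaneous approximations. Let `K` be a natural number, `ε > 0` and let `A_0, A_1, …`, `B_0, B_1, …` be arbitrary finite sets
of integers, `A_j` and `B_j` in `[-2^(j K), 2^(j K)]` and with at least `2^(j ε)` elements. We show that for all `α` outside of a set of
Hausdorff dimension at most `(d + 1 + w - δ) / (1 + τ)`, ALL the odd primes `p` at a distance of at most `k ^ w` from
`a k + b_1 u_1 + ⋯ + b_d u_d`, for every integral linear form `(a, b) ≠ 0` and all these approximations with large `k`, satisfy, with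
`2^(j - 1) < p ≤ 2^j`, `|∑_{a ∈ A'} ∑_{b ∈ B'} (a + b | p)| ≤ p^(-δ) √(|A_j| |B_j| |A'| |B'|)` for all subsets `A'` of `A_j` and `B'` of
`B_j`. The theorem is more general: linear forms are replaced by all the integral polynomials `P(k, u)` of degree at most `D` with small
level sets, with the dimension `(d + 1 - l + D + w - δ) / (1 + τ)`, for example `k ^ 2 + u_1 ^ 2 + Q(u_2, …)` with `l = D = 2`.

Proof. The theorem `AlmostAllPrimes` of this page in the starting library bounds the number of the exceptional primes up to `Q` by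
`Q ^ (1 - δ)` (here in the form of helper536's file `CommonFactors`, the lemma `count`). The integral vectors `(k, u)` with `k ≈ N` and
`P(k, u)` near these primes are counted with the level sets of `P` (`U513/AP/Core`), and the sets of the `α` approximated by them,
cubes of side `2 N ^ (- 1 - τ)`, are used as the covers in the definition of the Hausdorff measure. The numbers `k`, `u` have the
density zero for a given `α`, so that the bound for the number of exceptional primes alone does not say anything about them.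
-/

set_option autoImplicit false

open Filter MeasureTheory

namespace Pool.Agent.Results.MP_f6e9a2_nt.Approximations

open Finset

/-- The level sets of `P` in the boxes `|w_i| ≤ X` have at most `C X ^ (r - l + ε)` elements. -/
def SmallLevels {r : ℕ} (P : MvPolynomial (Fin r) ℤ) (l : ℝ) : Prop :=
  l ≤ r ∧ ∀ ε : ℝ, 0 < ε → ∃ C : ℝ, ∀ X : ℕ, 1 ≤ X → ∀ v : ℤ,
    ({w : Fin r → ℤ | (∀ i, |w i| ≤ X) ∧ MvPolynomial.eval w P = v}.ncard : ℝ) ≤ C * (X : ℝ) ^ (r - l + ε)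

/-- the polynomial `x_0 ^ 2 + x_1 ^ 2 + Q(x_2, x_3, …)` -/
noncomputable def squaresPlus {r : ℕ} (Q : MvPolynomial (Fin r) ℤ) : MvPolynomial (Fin (r + 2)) ℤ :=
  MvPolynomial.X 0 ^ 2 + MvPolynomial.X 1 ^ 2 + MvPolynomial.rename (fun i : Fin r => i.succ.succ) Q

/-- `(k, u)` is an approximation of `α` of exponent `τ` and shift `γ`: `|k α_i - γ_i - u_i| ≤ k ^ (-τ)` for all `i`. -/
def Approx {d : ℕ} (τ : ℝ) (γ α : Fin d → ℝ) (k : ℕ) (u : Fin d → ℤ) : Prop :=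
  ∀ i, |(k : ℝ) * α i - γ i - u i| ≤ (k : ℝ) ^ (-τ)

/-- `A_j` is a set of integers in `[-2^(j K), 2^(j K)]` with at least `2^(j ε)` elements, for all `j` -/
def Sets (K : ℕ) (ε : ℝ) (A : ℕ → Finset ℤ) : Prop :=
  ∀ j : ℕ, (∀ a ∈ A j, |a| ≤ ((2 ^ j : ℕ) : ℤ) ^ K) ∧ (((2 ^ j : ℕ) : ℝ)) ^ ε ≤ (A j).card

/-- with `j` the least number with `p ≤ 2^j`: `|∑_{a ∈ A'} ∑_{b ∈ B'} (a + b | p)| ≤ p^(-δ) √(|A_j| |B_j| |A'| |B'|)` for all subsets
`A'` of `A_j` and `B'` of `B_j` -/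
def Good (δ : ℝ) (A B : ℕ → Finset ℤ) (p : ℕ) : Prop :=
  ∀ A' ⊆ A (Nat.clog 2 p), ∀ B' ⊆ B (Nat.clog 2 p), |∑ a ∈ A', ∑ b ∈ B', (jacobiSym (a + b) p : ℝ)| ≤
    (p : ℝ) ^ (-δ) * Real.sqrt (((A (Nat.clog 2 p)).card : ℝ) * (B (Nat.clog 2 p)).card * ((A'.card : ℝ) * B'.card))

/-- the exceptional primes between `N / 2` and `N` -/
lemma count (K : ℕ) {ε : ℝ} (hε : 0 < ε) : ∃ δ : ℝ, 0 < δ ∧ δ < 1 ∧ ∃ N₀ : ℕ, ∀ A B : ℕ → Finset ℤ, Sets K ε A → Sets K ε B →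
    ∀ N : ℕ, N₀ ≤ N → ({p : ℕ | 1 ≤ p ∧ p ≤ N ∧ N < 2 * p ∧ p.Prime ∧ p ≠ 2 ∧ ¬ Good δ A B p}.ncard : ℝ) ≤
      4 * (N : ℝ) ^ (1 - δ) := by
  classical
  obtain ⟨δ₀, hδ₀, Q₀, h⟩ := AlmostAllPrimes.result.2 K ε hε
  obtain ⟨δ, hδ⟩ : ∃ δ, δ = min δ₀ (1 / 2) := ⟨_, rfl⟩
  have hδ0 : 0 < δ := by rw [hδ]; exact lt_min hδ₀ (by norm_num)
  have hδδ : δ ≤ δ₀ := by rw [hδ]; exact min_le_left _ _
  have hδ1 : δ ≤ 1 / 2 := by rw [hδ]; exact min_le_right _ _
  refine ⟨δ, hδ0, by linarith, 2 * Q₀ + 4, fun A B hA hB N hN => ?_⟩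
  have hex : ∀ j : ℕ, Q₀ ≤ 2 ^ j → ∃ E : Finset ℕ, (E.card : ℝ) ≤ (((2 ^ j : ℕ) : ℝ)) ^ (1 - δ₀) ∧
      ∀ p : ℕ, p.Prime → p ≠ 2 → p ≤ 2 ^ j → p ∉ E → ∀ A' ⊆ A j, ∀ B' ⊆ B j,
        |∑ a ∈ A', ∑ b ∈ B', (jacobiSym (a + b) p : ℝ)| ≤
          (((2 ^ j : ℕ) : ℝ)) ^ (-δ₀) * Real.sqrt (((A j).card : ℝ) * (B j).card * ((A'.card : ℝ) * B'.card)) := fun j hj =>
    h (2 ^ j) (A j) (B j) hj (hA j).1 (hB j).1 (hA j).2 (hB j).2
  obtain ⟨J, hJ⟩ : ∃ J, J = Nat.clog 2 N := ⟨_, rfl⟩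
  have hJ1 : N ≤ 2 ^ J := by rw [hJ]; exact Nat.le_pow_clog (by norm_num) N
  have hJ0 : 1 ≤ J := by
    by_contra hcon
    have : J = 0 := by omega
    rw [this] at hJ1
    omega
  have hJ2 : 2 ^ (J - 1) < N := by
    rw [hJ]
    exact Nat.pow_pred_clog_lt_self (by norm_num) (by omega)
  have hJ3 : 2 ^ J = 2 * 2 ^ (J - 1) := by
    rw [← pow_succ', Nat.sub_add_cancel hJ0]
  obtain ⟨E₁, hE₁, hE₁'⟩ := hex J (by omega)
  obtain ⟨E₂, hE₂, hE₂'⟩ := hex (J - 1) (by omega)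
  have hsub : {p : ℕ | 1 ≤ p ∧ p ≤ N ∧ N < 2 * p ∧ p.Prime ∧ p ≠ 2 ∧ ¬ Good δ A B p} ⊆ ((E₁ ∪ E₂ : Finset ℕ) : Set ℕ) := by
    rintro p ⟨g1, g2, g3, g4, g5, g6⟩
    rw [Finset.mem_coe, Finset.mem_union]
    by_contra hcon
    push Not at hcon
    apply g6
    have hp1 : (1 : ℝ) ≤ p := by exact_mod_cast g1
    have key : ∀ j : ℕ, p ≤ 2 ^ j → (((2 ^ j : ℕ) : ℝ)) ^ (-δ₀) ≤ (p : ℝ) ^ (-δ) := by
      intro j hj
      have h1 : (p : ℝ) ≤ ((2 ^ j : ℕ) : ℝ) := by exact_mod_cast hj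
      calc (((2 ^ j : ℕ) : ℝ)) ^ (-δ₀) ≤ (((2 ^ j : ℕ) : ℝ)) ^ (-δ) :=
            Real.rpow_le_rpow_of_exponent_le (hp1.trans h1) (by linarith)
        _ ≤ (p : ℝ) ^ (-δ) := Real.rpow_le_rpow_of_nonpos (by linarith) h1 (by linarith)
    have hc1 : Nat.clog 2 p ≤ J := by
      rw [hJ]
      exact Nat.clog_mono_right 2 g2
    have hc2 : J - 1 ≤ Nat.clog 2 p := by
      by_contra hlt
      push Not at hlt
      have h1 : p ≤ 2 ^ (Nat.clog 2 p) := Nat.le_pow_clog (by norm_num) p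
      have h2 : 2 ^ (Nat.clog 2 p + 1) ≤ 2 ^ (J - 1) := Nat.pow_le_pow_right (by norm_num) (by omega)
      rw [pow_succ] at h2
      omega
    intro A' hA' B' hB'
    have hple : p ≤ 2 ^ (Nat.clog 2 p) := Nat.le_pow_clog (by norm_num) p
    rcases (by omega : Nat.clog 2 p = J ∨ Nat.clog 2 p = J - 1) with hc | hc
    · rw [hc] at hA' hB' hple ⊢
      exact (hE₁' p g4 g5 hple hcon.1 A' hA' B' hB').trans (mul_le_mul_of_nonneg_right (key J hple) (Real.sqrt_nonneg _))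
    · rw [hc] at hA' hB' hple ⊢
      exact (hE₂' p g4 g5 hple hcon.2 A' hA' B' hB').trans (mul_le_mul_of_nonneg_right (key _ hple) (Real.sqrt_nonneg _))
  have h1 := Set.ncard_le_ncard hsub (Finset.finite_toSet _)
  rw [Set.ncard_coe_finset] at h1
  have h2 := h1.trans (Finset.card_union_le _ _)
  have hN0 : (1 : ℝ) ≤ N := by exact_mod_cast (by omega : 1 ≤ N)
  have hb : ∀ j : ℕ, 1 ≤ 2 ^ j → 2 ^ j ≤ 2 * N → (((2 ^ j : ℕ) : ℝ)) ^ (1 - δ₀) ≤ 2 * (N : ℝ) ^ (1 - δ) := by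
    intro j hj0 hj
    have h3 : (1 : ℝ) ≤ ((2 ^ j : ℕ) : ℝ) := by exact_mod_cast hj0
    have h4 : ((2 ^ j : ℕ) : ℝ) ≤ 2 * N := by exact_mod_cast hj
    calc (((2 ^ j : ℕ) : ℝ)) ^ (1 - δ₀) ≤ (((2 ^ j : ℕ) : ℝ)) ^ (1 - δ) :=
          Real.rpow_le_rpow_of_exponent_le h3 (by linarith)
      _ ≤ (2 * N : ℝ) ^ (1 - δ) := Real.rpow_le_rpow (by linarith) h4 (by linarith)
      _ = 2 ^ (1 - δ) * (N : ℝ) ^ (1 - δ) := Real.mul_rpow (by norm_num) (by linarith)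
      _ ≤ 2 * (N : ℝ) ^ (1 - δ) := by
          apply mul_le_mul_of_nonneg_right _ (by positivity)
          calc (2 : ℝ) ^ (1 - δ) ≤ 2 ^ (1 : ℝ) := Real.rpow_le_rpow_of_exponent_le (by norm_num) (by linarith)
            _ = 2 := Real.rpow_one 2
  have hb1 := hb J (Nat.one_le_two_pow) (by omega)
  have hb2 := hb (J - 1) (Nat.one_le_two_pow) (by omega)
  have h3 : ({p : ℕ | 1 ≤ p ∧ p ≤ N ∧ N < 2 * p ∧ p.Prime ∧ p ≠ 2 ∧ ¬ Good δ A B p}.ncard : ℝ) ≤ (E₁.card : ℝ) + E₂.card := by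
    exact_mod_cast h2
  linarith

/-- **Double sums of Legendre symbols over arbitrary sets, modulo all primes near the approximations of almost all points.** For all `K`
and `ε > 0` there is `0 < δ < 1` such that for all finite sets `A_j`, `B_j`, `j ≥ 0`, of integers in `[-2^(j K), 2^(j K)]` with at
least `2^(j ε)` elements and all `d ≥ 1`, `D ≥ 1`, `τ ≥ 0`, `w ≥ 0`, `l` and all `γ ∈ ℝ ^ d` there is a set `E` of Hausdorff dimension at
most `(d + 1 - l + D + w - δ) / (1 + τ)` (of Lebesgue measure zero if `D + w + 1 ≤ l + d τ`), such that for all `α ∉ E` and all integral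
polynomials `P` in `d + 1` variables of degree at most `D` with `SmallLevels P l`, for all large `k` and all integral vectors `u` with
`|k α_i - γ_i - u_i| ≤ k ^ (-τ)`, and ALL the odd primes `p` with `|p - P(k, u)| ≤ k ^ w`: with `j` the least number with `p ≤ 2^j`,
`|∑_{a ∈ A'} ∑_{b ∈ B'} (a + b | p)| ≤ p^(-δ) √(|A_j| |B_j| |A'| |B'|)` for all subsets `A'` of `A_j` and `B'` of `B_j`. All the
nonconstant polynomials, such as the linear forms, have `SmallLevels P 1`, and the polynomials `x_0 ^ 2 + x_1 ^ 2 + Q(x_2, …)` have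
`SmallLevels P 2`. -/
theorem result :
    (∀ (K : ℕ) (ε : ℝ), 0 < ε → ∃ δ : ℝ, 0 < δ ∧ δ < 1 ∧ ∀ A B : ℕ → Finset ℤ, Sets K ε A → Sets K ε B →
      ∀ (d D : ℕ) (τ w l : ℝ) (γ : Fin d → ℝ), 1 ≤ d → 1 ≤ D → 0 ≤ τ → 0 ≤ w →
        ∃ E : Set (Fin d → ℝ), dimH E ≤ ENNReal.ofReal ((d + 1 - l + D + w - δ) / (1 + τ)) ∧
          (D + w + 1 ≤ l + d * τ → volume E = 0) ∧
          ∀ α, α ∉ E → ∀ P : MvPolynomial (Fin (d + 1)) ℤ, P.totalDegree ≤ D → SmallLevels P l →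
            ∀ᶠ k : ℕ in atTop, ∀ u : Fin d → ℤ, Approx τ γ α k u → ∀ p : ℕ, p.Prime → p ≠ 2 →
              |(p : ℝ) - (MvPolynomial.eval (Fin.cons (k : ℤ) u : Fin (d + 1) → ℤ) P : ℤ)| ≤ (k : ℝ) ^ w →
                Good δ A B p) ∧
    (∀ (r : ℕ) (P : MvPolynomial (Fin r) ℤ), (∀ c : ℤ, P ≠ MvPolynomial.C c) → SmallLevels P 1) ∧
    ∀ (r : ℕ) (Q : MvPolynomial (Fin r) ℤ), SmallLevels (squaresPlus Q) 2 := by
  refine ⟨?_, fun r P hP => Pool.Agent.U513.AP.lev_one P hP, fun r Q => Pool.Agent.U513.AP.lev_squares Q⟩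
  intro K ε hε
  obtain ⟨δ, hδ0, hδ1, N₀, h⟩ := count K hε
  refine ⟨δ / 2, by linarith, by linarith, fun A B hA hB d D τ w l γ hd hD hτ hw => ?_⟩
  obtain ⟨E, g1, g2, g3⟩ := Pool.Agent.U513.AP.scale_nat_law (G := fun p => p.Prime → p ≠ 2 → Good δ A B p)
    (δ := δ) (C := 4) hδ0 hδ1 (by norm_num) N₀ (fun N hN => by
      refine le_trans (le_of_eq ?_) (h A B hA hB N hN)
      congr 2
      ext p
      simp only [Set.mem_ofPred_eq, Classical.not_imp]) (d := d) (D := D) (τ := τ) (w := w) (l := l) hd hD hτ hw γ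
  refine ⟨E, g1, g2, fun α hα P hP1 hP2 => ?_⟩
  filter_upwards [g3 α hα P hP1 hP2] with k hk u hu p hp hp2 hle
  have h1 := hk u hu p hp.one_lt.le hle hp hp2
  have hp1 : (1 : ℝ) ≤ p := by exact_mod_cast hp.one_lt.le
  intro A' hA' B' hB'
  refine (h1 A' hA' B' hB').trans (mul_le_mul_of_nonneg_right ?_ (Real.sqrt_nonneg _))
  exact Real.rpow_le_rpow_of_exponent_le hp1 (by linarith)

end Pool.Agent.Results.MP_f6e9a2_nt.Approximations
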