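import Pool.Agent.U536.CF.Sc
import Pool.Agent.Results.MP_f6e9a2_nt.AlmostAllPrimes

/-!
# Double sums of Legendre symbols over arbitrary sets, modulo all primes near integers with a large common factor with a value
of a multiplicative function

Let `f` be a positive multiplicative function of at most polynomial growth such that `f p ≤ M p` for the large primes `p`,
with different values at different large primes; for example Euler's function or the sum of the divisors. Let `G` have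
steps bounded below by a positive constant and growth at most `v^d`, for example `α v^d`. Let `b < 1` and `0 ≤ c < 2 b - 1`, let `K`
be a natural number, `ε > 0` and let `A_0, A_1, …`, `B_0, B_1, …` be arbitrary finite sets of integers, `A_j` and `B_j` in
`[-2^(j K), 2^(j K)]` and with at least `2^(j ε)` elements. For all `m ≤ N` but `N exp (-(log N)^c)`, for EVERY integer
`w ≥ exp ((log N)^b)` with `gcd(w, f(m)) ≥ w^ρ`, ALL odd primes `p` with `|p - G w| ≤ w ^ κ` satisfy, with `2^(j - 1) < p ≤ 2^j`,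
`|∑_{a ∈ A'} ∑_{b ∈ B'} (a + b | p)| ≤ p^(-δ) √(|A_j| |B_j| |A'| |B'|)` for all subsets `A'` of `A_j` and `B'` of `B_j`, if
`κ ≥ 0` and `d (1 - δ) + κ < ρ ≤ 1` (`δ > 0` depends only on `K` and `ε`). The bound `N ≥ N₀` does not depend on the sets. The
integers `w` include all large divisors of `f(m)` and their multiples by small integers (so ALL large prime factors of
`φ(m)` are such primes); for Euler's function, the orders of the elements of the group of units modulo `m`.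

Proof. Write `m = k u` with `u` squarefree and composed of primes larger than `N^(1/J)`, `J = (log N)^a`, and
`k ≤ exp (4 (log N)^a)`; this is possible for all `m ≤ N` but very few. If `v ∣ f(k) f(u)`, then `v = g v'` with `g ∣ f(k)` and
`v' ∣ ∏ f(p)`, and the number of such `u ≤ N / k` is at most `N / (k v')` times `(log N)^O(J)` times the number `τ_J(v')` of the
ordered factorizations of `v'` into `J` factors. The inequality `τ_J^q ≤ τ_K` for `K ≥ J^q` and Hölder's inequality bound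
the sum over the sparse set of the exceptional `v`. The count of the exceptional primes `p ≤ Q` is the theorem
`AlmostAllPrimes` of this page in the starting library; the large divisors of the values of multiplicative functions form a
set of density zero and are taken with very large multiplicities, and so the theorem does not follow from that count alone.
-/

set_option autoImplicit false

namespace Pool.Agent.Results.MP_f6e9a2_nt.CommonFactors

open Finset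
open Pool.Agent.N733.TG (LM Expanding lm_totient lm_sigma expanding_pow)
open Pool.Agent.U536.CF (Common common_scale_nat common_of_dvd common_order)

/-- `A_j` is a set of integers in `[-2^(j K), 2^(j K)]` with at least `2^(j ε)` elements, for all `j` -/
def Sets (K : ℕ) (ε : ℝ) (A : ℕ → Finset ℤ) : Prop :=
  ∀ j : ℕ, (∀ a ∈ A j, |a| ≤ ((2 ^ j : ℕ) : ℤ) ^ K) ∧ (((2 ^ j : ℕ) : ℝ)) ^ ε ≤ (A j).card

/-- with `j` the least number with `p ≤ 2^j`: `|∑_{a ∈ A'} ∑_{b ∈ B'} (a + b | p)| ≤ p^(-δ) √(|A_j| |B_j| |A'| |B'|)` for all subsets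
`A'` of `A_j` and `B'` of `B_j` -/
def Good (δ : ℝ) (A B : ℕ → Finset ℤ) (p : ℕ) : Prop :=
  ∀ A' ⊆ A (Nat.clog 2 p), ∀ B' ⊆ B (Nat.clog 2 p), |∑ a ∈ A', ∑ b ∈ B', (jacobiSym (a + b) p : ℝ)| ≤
    (p : ℝ) ^ (-δ) * Real.sqrt (((A (Nat.clog 2 p)).card : ℝ) * (B (Nat.clog 2 p)).card * ((A'.card : ℝ) * B'.card))

/-- the exceptional primes between `N / 2` and `N` -/
lemma count (K : ℕ) {ε : ℝ} (hε : 0 < ε) : ∃ δ : ℝ, 0 < δ ∧ δ < 1 ∧ ∃ N₀ : ℕ, ∀ A B : ℕ → Finset ℤ, Sets K ε A → Sets K ε B →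
    ∀ N : ℕ, N₀ ≤ N → ({p : ℕ | 1 ≤ p ∧ p ≤ N ∧ N < 2 * p ∧ p.Prime ∧ p ≠ 2 ∧ ¬ Good δ A B p}.ncard : ℝ) ≤
      4 * (N : ℝ) ^ (1 - δ) := by
  classical
  obtain ⟨δ₀, hδ₀, Q₀, h⟩ := AlmostAllPrimes.result.2 K ε hε
  obtain ⟨δ, hδ⟩ : ∃ δ, δ = min δ₀ (1 / 2) := ⟨_, rfl⟩
  have hδ0 : 0 < δ := by rw [hδ]; exact lt_min hδ₀ (by norm_num)
  have hδδ : δ ≤ δ₀ := by rw [hδ]; exact min_le_left _ _
  have hδ1 : δ ≤ 1 / 2 := by rw [hδ]; exact min_le_right _ _
  refine ⟨δ, hδ0, by linarith, 2 * Q₀ + 4, fun A B hA hB N hN => ?_⟩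
  have hex : ∀ j : ℕ, Q₀ ≤ 2 ^ j → ∃ E : Finset ℕ, (E.card : ℝ) ≤ (((2 ^ j : ℕ) : ℝ)) ^ (1 - δ₀) ∧
      ∀ p : ℕ, p.Prime → p ≠ 2 → p ≤ 2 ^ j → p ∉ E → ∀ A' ⊆ A j, ∀ B' ⊆ B j,
        |∑ a ∈ A', ∑ b ∈ B', (jacobiSym (a + b) p : ℝ)| ≤
          (((2 ^ j : ℕ) : ℝ)) ^ (-δ₀) * Real.sqrt (((A j).card : ℝ) * (B j).card * ((A'.card : ℝ) * B'.card)) := fun j hj =>
    h (2 ^ j) (A j) (B j) hj (hA j).1 (hB j).1 (hA j).2 (hB j).2
  obtain ⟨J, hJ⟩ : ∃ J, J = Nat.clog 2 N := ⟨_, rfl⟩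
  have hJ1 : N ≤ 2 ^ J := by rw [hJ]; exact Nat.le_pow_clog (by norm_num) N
  have hJ0 : 1 ≤ J := by
    by_contra hcon
    have : J = 0 := by omega
    rw [this] at hJ1
    omega
  have hJ2 : 2 ^ (J - 1) < N := by
    rw [hJ]
    exact Nat.pow_pred_clog_lt_self (by norm_num) (by omega)
  have hJ3 : 2 ^ J = 2 * 2 ^ (J - 1) := by
    rw [← pow_succ', Nat.sub_add_cancel hJ0]
  obtain ⟨E₁, hE₁, hE₁'⟩ := hex J (by omega)
  obtain ⟨E₂, hE₂, hE₂'⟩ := hex (J - 1) (by omega)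
  have hsub : {p : ℕ | 1 ≤ p ∧ p ≤ N ∧ N < 2 * p ∧ p.Prime ∧ p ≠ 2 ∧ ¬ Good δ A B p} ⊆ ((E₁ ∪ E₂ : Finset ℕ) : Set ℕ) := by
    rintro p ⟨g1, g2, g3, g4, g5, g6⟩
    rw [Finset.mem_coe, Finset.mem_union]
    by_contra hcon
    push Not at hcon
    apply g6
    have hp1 : (1 : ℝ) ≤ p := by exact_mod_cast g1
    have key : ∀ j : ℕ, p ≤ 2 ^ j → (((2 ^ j : ℕ) : ℝ)) ^ (-δ₀) ≤ (p : ℝ) ^ (-δ) := by
      intro j hj
      have h1 : (p : ℝ) ≤ ((2 ^ j : ℕ) : ℝ) := by exact_mod_cast hj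
      calc (((2 ^ j : ℕ) : ℝ)) ^ (-δ₀) ≤ (((2 ^ j : ℕ) : ℝ)) ^ (-δ) :=
            Real.rpow_le_rpow_of_exponent_le (hp1.trans h1) (by linarith)
        _ ≤ (p : ℝ) ^ (-δ) := Real.rpow_le_rpow_of_nonpos (by linarith) h1 (by linarith)
    have hc1 : Nat.clog 2 p ≤ J := by
      rw [hJ]
      exact Nat.clog_mono_right 2 g2
    have hc2 : J - 1 ≤ Nat.clog 2 p := by
      by_contra hlt
      push Not at hlt
      have h1 : p ≤ 2 ^ (Nat.clog 2 p) := Nat.le_pow_clog (by norm_num) p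
      have h2 : 2 ^ (Nat.clog 2 p + 1) ≤ 2 ^ (J - 1) := Nat.pow_le_pow_right (by norm_num) (by omega)
      rw [pow_succ] at h2
      omega
    intro A' hA' B' hB'
    have hple : p ≤ 2 ^ (Nat.clog 2 p) := Nat.le_pow_clog (by norm_num) p
    rcases (by omega : Nat.clog 2 p = J ∨ Nat.clog 2 p = J - 1) with hc | hc
    · rw [hc] at hA' hB' hple ⊢
      exact (hE₁' p g4 g5 hple hcon.1 A' hA' B' hB').trans (mul_le_mul_of_nonneg_right (key J hple) (Real.sqrt_nonneg _))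
    · rw [hc] at hA' hB' hple ⊢
      exact (hE₂' p g4 g5 hple hcon.2 A' hA' B' hB').trans (mul_le_mul_of_nonneg_right (key _ hple) (Real.sqrt_nonneg _))
  have h1 := Set.ncard_le_ncard hsub (Finset.finite_toSet _)
  rw [Set.ncard_coe_finset] at h1
  have h2 := h1.trans (Finset.card_union_le _ _)
  have hN0 : (1 : ℝ) ≤ N := by exact_mod_cast (by omega : 1 ≤ N)
  have hb : ∀ j : ℕ, 1 ≤ 2 ^ j → 2 ^ j ≤ 2 * N → (((2 ^ j : ℕ) : ℝ)) ^ (1 - δ₀) ≤ 2 * (N : ℝ) ^ (1 - δ) := by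
    intro j hj0 hj
    have h3 : (1 : ℝ) ≤ ((2 ^ j : ℕ) : ℝ) := by exact_mod_cast hj0
    have h4 : ((2 ^ j : ℕ) : ℝ) ≤ 2 * N := by exact_mod_cast hj
    calc (((2 ^ j : ℕ) : ℝ)) ^ (1 - δ₀) ≤ (((2 ^ j : ℕ) : ℝ)) ^ (1 - δ) :=
          Real.rpow_le_rpow_of_exponent_le h3 (by linarith)
      _ ≤ (2 * N : ℝ) ^ (1 - δ) := Real.rpow_le_rpow (by linarith) h4 (by linarith)
      _ = 2 ^ (1 - δ) * (N : ℝ) ^ (1 - δ) := Real.mul_rpow (by norm_num) (by linarith)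
      _ ≤ 2 * (N : ℝ) ^ (1 - δ) := by
          apply mul_le_mul_of_nonneg_right _ (by positivity)
          calc (2 : ℝ) ^ (1 - δ) ≤ 2 ^ (1 : ℝ) := Real.rpow_le_rpow_of_exponent_le (by norm_num) (by linarith)
            _ = 2 := Real.rpow_one 2
  have hb1 := hb J (Nat.one_le_two_pow) (by omega)
  have hb2 := hb (J - 1) (Nat.one_le_two_pow) (by omega)
  have h3 : ({p : ℕ | 1 ≤ p ∧ p ≤ N ∧ N < 2 * p ∧ p.Prime ∧ p ≠ 2 ∧ ¬ Good δ A B p}.ncard : ℝ) ≤ (E₁.card : ℝ) + E₂.card := by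
    exact_mod_cast h2
  linarith

/-- **Double sums of Legendre symbols over arbitrary sets, modulo all primes near integers with a large common factor with a value
of a multiplicative function.** For all `K` and `ε > 0` there is `0 < δ < 1` such that the following holds. Let `f` be
multiplicative and positive, of at most polynomial growth, with `f p ≤ M p` at the large primes, and injective there. Let `G` have
steps `≥ a > 0` and growth at most `v^d`. Let `b < 1` and `0 ≤ c < 2 b - 1`, `κ ≥ 0` and `d (1 - δ) + κ < ρ ≤ 1`. For all large `N`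
and all finite sets `A_j`, `B_j`, `j ≥ 0`, of integers in `[-2^(j K), 2^(j K)]` with at least `2^(j ε)` elements, for all `m ≤ N` but
`N exp (-(log N)^c)`, for EVERY integer `w ≥ exp ((log N)^b)` with `gcd(w, f(m)) ≥ w^ρ`, ALL odd primes `p` with
`|p - G w| ≤ w ^ κ` satisfy, with `j` the least number with `p ≤ 2^j`,
`|∑_{a ∈ A'} ∑_{b ∈ B'} (a + b | p)| ≤ p^(-δ) √(|A_j| |B_j| |A'| |B'|)` for all subsets `A'` of `A_j` and `B'` of `B_j`.
All divisors `w ≥ exp ((log N)^b)` of `f(m)` are such integers `w`, and for Euler's function the orders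
`≥ exp ((log N)^b)` of the units modulo `m`. Euler's function and the sum of the divisors are examples of `f`, and `α v^d` with
`α > 0`, `d ≥ 1` is an example of `G`. -/
theorem result :
    (∀ (K : ℕ) (ε : ℝ), 0 < ε → ∃ δ : ℝ, 0 < δ ∧ δ < 1 ∧ ∀ f : ℕ → ℕ, LM f → ∀ (G : ℕ → ℝ) (d : ℝ), Expanding G d →
      ∀ κ ρ b c : ℝ, 0 ≤ κ → d * (1 - δ) + κ < ρ → ρ ≤ 1 → b < 1 → 0 ≤ c → c < 2 * b - 1 → ∃ N₀ : ℕ, ∀ N : ℕ, N₀ ≤ N →
      ∀ A B : ℕ → Finset ℤ, Sets K ε A → Sets K ε B →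
        ({m : ℕ | 1 ≤ m ∧ m ≤ N ∧ ¬ ∀ w : ℕ, Common f b ρ N m w → ∀ p : ℕ, p.Prime → p ≠ 2 →
          |(p : ℝ) - G w| ≤ (w : ℝ) ^ κ → Good δ A B p}.ncard : ℝ) ≤ N * Real.exp (-(Real.log N ^ c))) ∧
    (LM Nat.totient ∧ LM (fun m => ∑ d ∈ m.divisors, d)) ∧
    (∀ α d : ℝ, 0 < α → 1 ≤ d → Expanding (fun v => α * (v : ℝ) ^ d) d) ∧
    (∀ (f : ℕ → ℕ) (b ρ : ℝ) (N m w : ℕ), ρ ≤ 1 → Real.exp (Real.log N ^ b) ≤ (w : ℝ) → w ∣ f m → Common f b ρ N m w) ∧
    ∀ (b ρ : ℝ) (N m : ℕ), ρ ≤ 1 → ∀ x : (ZMod m)ˣ, Real.exp (Real.log N ^ b) ≤ (orderOf x : ℝ) →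
      Common Nat.totient b ρ N m (orderOf x) := by
  refine ⟨?_, ⟨lm_totient, lm_sigma⟩, fun α d hα hd => expanding_pow hα hd, fun f b ρ N m w hρ hw hd => common_of_dvd hρ hw hd,
    fun b ρ N m hρ x hx => common_order hρ x hx⟩
  intro K ε hε
  obtain ⟨δ, hδ0, hδ1, M₀, h⟩ := count K hε
  refine ⟨δ, hδ0, hδ1, fun f hf G d hG κ ρ b c hκ h1 hρ hb hc hcb => ?_⟩
  obtain ⟨N₀, hN₀⟩ := common_scale_nat (s := 1 - δ) (C := 4) (by linarith) M₀ 0 hf hG hκ h1 hρ hb hc hcb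
  refine ⟨N₀, fun N hN A B hA hB => ?_⟩
  have key := hN₀ (fun N p => N < 2 * p ∧ p.Prime ∧ p ≠ 2 ∧ ¬ Good δ A B p) (fun p => p.Prime ∧ p ≠ 2 ∧ ¬ Good δ A B p)
    (fun M hM => h A B hA hB M hM) (fun n M _ _ _ h4 h5 => ⟨h4, h5⟩) N hN
  refine le_trans (le_of_eq ?_) key
  congr 2
  ext m
  simp only [Set.mem_ofPred_eq]
  push Not
  constructor
  · rintro ⟨a1, a2, w, hw, p, a3, a4, a5, a6⟩
    exact ⟨a1, a2, w, hw, p, a3.one_lt.le, a5, a3, a4, a6⟩
  · rintro ⟨a1, a2, w, hw, p, _, a5, a3, a4, a6⟩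
    exact ⟨a1, a2, w, hw, p, a3, a4, a5, a6⟩

end Pool.Agent.Results.MP_f6e9a2_nt.CommonFactors
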