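import Pool.Agent.U536.DS.Sc
import Pool.Agent.Results.MP_f6e9a2_nt.AlmostAllPrimes

/-!
# Double sums of Legendre symbols over arbitrary sets, modulo all primes near the integral combinations of two divisors of a
value of a multiplicative function

Let `f` be a positive multiplicative function of at most polynomial growth such that `f p ≤ M p` for the large primes `p`,
with different values at different large primes; for example Euler's function or the sum of the divisors. Let `G` have steps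
bounded below by a positive constant and growth at most `v^d`, for example `α v^d`. Let `b < 1` and `0 ≤ c < 2 b - 1`, let
`K` be a natural number, `ε > 0` and let `A_0, A_1, …`, `B_0, B_1, …` be arbitrary finite sets of integers, `A_j` and `B_j`
in `[-2^(j K), 2^(j K)]` and with at least `2^(j ε)` elements. For all `m ≤ N` but `N exp (-(log N)^c)`, for EVERY integer
`w ≥ exp ((log N)^b)` of the form `w = u s + v t` with divisors `s`, `t` of `f(m)` and integers `|u|, |v| ≤ exp ((log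
N)^θ)`, ALL odd primes `p` with `|p - G w| ≤ w ^ κ` satisfy, with `2^(j - 1) < p ≤ 2^j`, `|∑_{a ∈ A'} ∑_{b ∈ B'} (a + b |
p)| ≤ p^(-δ) √(|A_j| |B_j| |A'| |B'|)` for all subsets `A'` of `A_j` and `B'` of `B_j`, if `κ ≥ 0` and `d (1 - δ) + κ < 1`,
`θ < b` (`δ > 0` depends only on `K` and `ε`). The bound `N ≥ N₀` does not depend on the sets. The integers `w` include all
large divisors of `f(m)` and their multiples by small integers (so ALL large prime factors of `φ(m)` are such primes); for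
Euler's function, the orders of the elements of the group of units modulo `m`.

Proof. Write `m = k u` with `u` squarefree and composed of primes larger than `N^(1/J)`, `J = (log N)^a`, and `k ≤ exp (4
(log N)^a)`; this is possible for all `m ≤ N` but very few. If `v ∣ f(k) f(u)`, then `v = g v'` with `g ∣ f(k)` and `v' ∣ ∏
f(p)`, and the number of such `u ≤ N / k` is at most `N / (k v')` times `(log N)^O(J)` times the number `τ_J(v')` of the
ordered factorizations of `v'` into `J` factors. Take for `v` the least common multiple of `s` and `t`: the sum of `1 / [s,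
t]` over the pairs `s, t ≤ X` with `u s + v t = w` is at most `4 U (1 + log X) τ(w) / w` if `|u|, |v| ≤ U`; the inequality
`τ_J^q ≤ τ_K` for `K ≥ J^q` and Hölder's inequality bound the sum over the pairs with exceptional `w`. The integers of the
hand-in `CommonFactors` of this page have a large common factor with `f(m)`; the sums and differences of two divisors of
`f(m)` have in general none. The count of the exceptional primes `p ≤ Q` is the theorem `AlmostAllPrimes` of this page in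
the starting library; the pairs of divisors of the `f(m)` are far more numerous than the `m`, and so the theorem does not
follow from that count alone.
-/

set_option autoImplicit false

namespace Pool.Agent.Results.MP_f6e9a2_nt.DivisorSums

open Finset
open Pool.Agent.N733.TG (LM Expanding lm_totient lm_sigma expanding_pow)
open Pool.Agent.U536.DS (Comb comb_scale_nat comb_pm comb_orders)

/-- `A_j` is a set of integers in `[-2^(j K), 2^(j K)]` with at least `2^(j ε)` elements, for all `j` -/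
def Sets (K : ℕ) (ε : ℝ) (A : ℕ → Finset ℤ) : Prop :=
  ∀ j : ℕ, (∀ a ∈ A j, |a| ≤ ((2 ^ j : ℕ) : ℤ) ^ K) ∧ (((2 ^ j : ℕ) : ℝ)) ^ ε ≤ (A j).card

/-- with `j` the least number with `p ≤ 2^j`: `|∑_{a ∈ A'} ∑_{b ∈ B'} (a + b | p)| ≤ p^(-δ) √(|A_j| |B_j| |A'| |B'|)` for all subsets
`A'` of `A_j` and `B'` of `B_j` -/
def Good (δ : ℝ) (A B : ℕ → Finset ℤ) (p : ℕ) : Prop :=
  ∀ A' ⊆ A (Nat.clog 2 p), ∀ B' ⊆ B (Nat.clog 2 p), |∑ a ∈ A', ∑ b ∈ B', (jacobiSym (a + b) p : ℝ)| ≤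
    (p : ℝ) ^ (-δ) * Real.sqrt (((A (Nat.clog 2 p)).card : ℝ) * (B (Nat.clog 2 p)).card * ((A'.card : ℝ) * B'.card))

/-- the exceptional primes between `N / 2` and `N` -/
lemma count (K : ℕ) {ε : ℝ} (hε : 0 < ε) : ∃ δ : ℝ, 0 < δ ∧ δ < 1 ∧ ∃ N₀ : ℕ, ∀ A B : ℕ → Finset ℤ, Sets K ε A → Sets K ε B →
    ∀ N : ℕ, N₀ ≤ N → ({p : ℕ | 1 ≤ p ∧ p ≤ N ∧ N < 2 * p ∧ p.Prime ∧ p ≠ 2 ∧ ¬ Good δ A B p}.ncard : ℝ) ≤
      4 * (N : ℝ) ^ (1 - δ) := by
  classical
  obtain ⟨δ₀, hδ₀, Q₀, h⟩ := AlmostAllPrimes.result.2 K ε hε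
  obtain ⟨δ, hδ⟩ : ∃ δ, δ = min δ₀ (1 / 2) := ⟨_, rfl⟩
  have hδ0 : 0 < δ := by rw [hδ]; exact lt_min hδ₀ (by norm_num)
  have hδδ : δ ≤ δ₀ := by rw [hδ]; exact min_le_left _ _
  have hδ1 : δ ≤ 1 / 2 := by rw [hδ]; exact min_le_right _ _
  refine ⟨δ, hδ0, by linarith, 2 * Q₀ + 4, fun A B hA hB N hN => ?_⟩
  have hex : ∀ j : ℕ, Q₀ ≤ 2 ^ j → ∃ E : Finset ℕ, (E.card : ℝ) ≤ (((2 ^ j : ℕ) : ℝ)) ^ (1 - δ₀) ∧
      ∀ p : ℕ, p.Prime → p ≠ 2 → p ≤ 2 ^ j → p ∉ E → ∀ A' ⊆ A j, ∀ B' ⊆ B j,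
        |∑ a ∈ A', ∑ b ∈ B', (jacobiSym (a + b) p : ℝ)| ≤
          (((2 ^ j : ℕ) : ℝ)) ^ (-δ₀) * Real.sqrt (((A j).card : ℝ) * (B j).card * ((A'.card : ℝ) * B'.card)) := fun j hj =>
    h (2 ^ j) (A j) (B j) hj (hA j).1 (hB j).1 (hA j).2 (hB j).2
  obtain ⟨J, hJ⟩ : ∃ J, J = Nat.clog 2 N := ⟨_, rfl⟩
  have hJ1 : N ≤ 2 ^ J := by rw [hJ]; exact Nat.le_pow_clog (by norm_num) N
  have hJ0 : 1 ≤ J := by
    by_contra hcon
    have : J = 0 := by omega
    rw [this] at hJ1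
    omega
  have hJ2 : 2 ^ (J - 1) < N := by
    rw [hJ]
    exact Nat.pow_pred_clog_lt_self (by norm_num) (by omega)
  have hJ3 : 2 ^ J = 2 * 2 ^ (J - 1) := by
    rw [← pow_succ', Nat.sub_add_cancel hJ0]
  obtain ⟨E₁, hE₁, hE₁'⟩ := hex J (by omega)
  obtain ⟨E₂, hE₂, hE₂'⟩ := hex (J - 1) (by omega)
  have hsub : {p : ℕ | 1 ≤ p ∧ p ≤ N ∧ N < 2 * p ∧ p.Prime ∧ p ≠ 2 ∧ ¬ Good δ A B p} ⊆ ((E₁ ∪ E₂ : Finset ℕ) : Set ℕ) := by
    rintro p ⟨g1, g2, g3, g4, g5, g6⟩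
    rw [Finset.mem_coe, Finset.mem_union]
    by_contra hcon
    push Not at hcon
    apply g6
    have hp1 : (1 : ℝ) ≤ p := by exact_mod_cast g1
    have key : ∀ j : ℕ, p ≤ 2 ^ j → (((2 ^ j : ℕ) : ℝ)) ^ (-δ₀) ≤ (p : ℝ) ^ (-δ) := by
      intro j hj
      have h1 : (p : ℝ) ≤ ((2 ^ j : ℕ) : ℝ) := by exact_mod_cast hj
      calc (((2 ^ j : ℕ) : ℝ)) ^ (-δ₀) ≤ (((2 ^ j : ℕ) : ℝ)) ^ (-δ) :=
            Real.rpow_le_rpow_of_exponent_le (hp1.trans h1) (by linarith)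
        _ ≤ (p : ℝ) ^ (-δ) := Real.rpow_le_rpow_of_nonpos (by linarith) h1 (by linarith)
    have hc1 : Nat.clog 2 p ≤ J := by
      rw [hJ]
      exact Nat.clog_mono_right 2 g2
    have hc2 : J - 1 ≤ Nat.clog 2 p := by
      by_contra hlt
      push Not at hlt
      have h1 : p ≤ 2 ^ (Nat.clog 2 p) := Nat.le_pow_clog (by norm_num) p
      have h2 : 2 ^ (Nat.clog 2 p + 1) ≤ 2 ^ (J - 1) := Nat.pow_le_pow_right (by norm_num) (by omega)
      rw [pow_succ] at h2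
      omega
    intro A' hA' B' hB'
    have hple : p ≤ 2 ^ (Nat.clog 2 p) := Nat.le_pow_clog (by norm_num) p
    rcases (by omega : Nat.clog 2 p = J ∨ Nat.clog 2 p = J - 1) with hc | hc
    · rw [hc] at hA' hB' hple ⊢
      exact (hE₁' p g4 g5 hple hcon.1 A' hA' B' hB').trans (mul_le_mul_of_nonneg_right (key J hple) (Real.sqrt_nonneg _))
    · rw [hc] at hA' hB' hple ⊢
      exact (hE₂' p g4 g5 hple hcon.2 A' hA' B' hB').trans (mul_le_mul_of_nonneg_right (key _ hple) (Real.sqrt_nonneg _))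
  have h1 := Set.ncard_le_ncard hsub (Finset.finite_toSet _)
  rw [Set.ncard_coe_finset] at h1
  have h2 := h1.trans (Finset.card_union_le _ _)
  have hN0 : (1 : ℝ) ≤ N := by exact_mod_cast (by omega : 1 ≤ N)
  have hb : ∀ j : ℕ, 1 ≤ 2 ^ j → 2 ^ j ≤ 2 * N → (((2 ^ j : ℕ) : ℝ)) ^ (1 - δ₀) ≤ 2 * (N : ℝ) ^ (1 - δ) := by
    intro j hj0 hj
    have h3 : (1 : ℝ) ≤ ((2 ^ j : ℕ) : ℝ) := by exact_mod_cast hj0
    have h4 : ((2 ^ j : ℕ) : ℝ) ≤ 2 * N := by exact_mod_cast hj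
    calc (((2 ^ j : ℕ) : ℝ)) ^ (1 - δ₀) ≤ (((2 ^ j : ℕ) : ℝ)) ^ (1 - δ) :=
          Real.rpow_le_rpow_of_exponent_le h3 (by linarith)
      _ ≤ (2 * N : ℝ) ^ (1 - δ) := Real.rpow_le_rpow (by linarith) h4 (by linarith)
      _ = 2 ^ (1 - δ) * (N : ℝ) ^ (1 - δ) := Real.mul_rpow (by norm_num) (by linarith)
      _ ≤ 2 * (N : ℝ) ^ (1 - δ) := by
          apply mul_le_mul_of_nonneg_right _ (by positivity)
          calc (2 : ℝ) ^ (1 - δ) ≤ 2 ^ (1 : ℝ) := Real.rpow_le_rpow_of_exponent_le (by norm_num) (by linarith)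
            _ = 2 := Real.rpow_one 2
  have hb1 := hb J (Nat.one_le_two_pow) (by omega)
  have hb2 := hb (J - 1) (Nat.one_le_two_pow) (by omega)
  have h3 : ({p : ℕ | 1 ≤ p ∧ p ≤ N ∧ N < 2 * p ∧ p.Prime ∧ p ≠ 2 ∧ ¬ Good δ A B p}.ncard : ℝ) ≤ (E₁.card : ℝ) + E₂.card := by
    exact_mod_cast h2
  linarith

/-- **Double sums of Legendre symbols over arbitrary sets, modulo all primes near the integral combinations of two divisors of a
value of a multiplicative function.** For all `K` and `ε > 0` there is `0 < δ < 1` such that the following holds. Let `f` be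
multiplicative and positive, of at most polynomial growth, with `f p ≤ M p` at the large primes, and injective there. Let
`G` have steps `≥ a > 0` and growth at most `v^d`. Let `b < 1` and `0 ≤ c < 2 b - 1`, `κ ≥ 0` and `d (1 - δ) + κ < 1`, `θ <
b`. For all large `N` and all finite sets `A_j`, `B_j`, `j ≥ 0`, of integers in `[-2^(j K), 2^(j K)]` with at least `2^(j
ε)` elements, for all `m ≤ N` but `N exp (-(log N)^c)`, for EVERY integer `w ≥ exp ((log N)^b)` of the form `w = u s + v t`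
with divisors `s`, `t` of `f(m)` and integers `|u|, |v| ≤ exp ((log N)^θ)`, ALL odd primes `p` with `|p - G w| ≤ w ^ κ`
satisfy, with `j` the least number with `p ≤ 2^j`, `|∑_{a ∈ A'} ∑_{b ∈ B'} (a + b | p)| ≤ p^(-δ) √(|A_j| |B_j| |A'| |B'|)`
for all subsets `A'` of `A_j` and `B'` of `B_j`. All the sums and differences `≥ exp ((log N)^b)` of two divisors of `f(m)`
are such integers `w`, and for Euler's function those of the orders of two units modulo `m`. Euler's function and the sum of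
the divisors are examples of `f`, and `α v^d` with `α > 0`, `d ≥ 1` is an example of `G`. -/
theorem result :
    (∀ (K : ℕ) (ε : ℝ), 0 < ε → ∃ δ : ℝ, 0 < δ ∧ δ < 1 ∧ ∀ f : ℕ → ℕ, LM f → ∀ (G : ℕ → ℝ) (d : ℝ), Expanding G d →
      ∀ κ θ b c : ℝ, 0 ≤ κ → d * (1 - δ) + κ < 1 → θ < b → b < 1 → 0 ≤ c → c < 2 * b - 1 → ∃ N₀ : ℕ, ∀ N : ℕ, N₀ ≤ N →
      ∀ A B : ℕ → Finset ℤ, Sets K ε A → Sets K ε B →
        ({m : ℕ | 1 ≤ m ∧ m ≤ N ∧ ¬ ∀ w : ℕ, Comb f b θ N m w → ∀ p : ℕ, p.Prime → p ≠ 2 →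
          |(p : ℝ) - G w| ≤ (w : ℝ) ^ κ → Good δ A B p}.ncard : ℝ) ≤ N * Real.exp (-(Real.log N ^ c))) ∧
    (LM Nat.totient ∧ LM (fun m => ∑ d ∈ m.divisors, d)) ∧
    (∀ α d : ℝ, 0 < α → 1 ≤ d → Expanding (fun v => α * (v : ℝ) ^ d) d) ∧
    (∀ (f : ℕ → ℕ) (b θ : ℝ) (N m s t : ℕ), s ∣ f m → t ∣ f m →
      (Real.exp (Real.log N ^ b) ≤ ((s + t : ℕ) : ℝ) → Comb f b θ N m (s + t)) ∧
      (Real.exp (Real.log N ^ b) ≤ ((s - t : ℕ) : ℝ) → Comb f b θ N m (s - t)) ∧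
      (Real.exp (Real.log N ^ b) ≤ (s : ℝ) → Comb f b θ N m s)) ∧
    ∀ (b θ : ℝ) (N m : ℕ) (x y : (ZMod m)ˣ),
      (Real.exp (Real.log N ^ b) ≤ ((orderOf x + orderOf y : ℕ) : ℝ) → Comb Nat.totient b θ N m (orderOf x + orderOf y)) ∧
      (Real.exp (Real.log N ^ b) ≤ ((orderOf x - orderOf y : ℕ) : ℝ) → Comb Nat.totient b θ N m (orderOf x - orderOf y)) := by
  refine ⟨?_, ⟨lm_totient, lm_sigma⟩, fun α d hα hd => expanding_pow hα hd, fun f b θ N m s t hs ht => comb_pm hs ht,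
    fun b θ N m x y => comb_orders x y⟩
  intro K ε hε
  obtain ⟨δ, hδ0, hδ1, M₀, h⟩ := count K hε
  refine ⟨δ, hδ0, hδ1, fun f hf G d hG κ θ b c hκ h1 hθ hb hc hcb => ?_⟩
  obtain ⟨N₀, hN₀⟩ := comb_scale_nat (s := 1 - δ) (C := 4) (by linarith) M₀ 0 hf hG hκ h1 hθ hb hc hcb
  refine ⟨N₀, fun N hN A B hA hB => ?_⟩
  have key := hN₀ (fun N p => N < 2 * p ∧ p.Prime ∧ p ≠ 2 ∧ ¬ Good δ A B p) (fun p => p.Prime ∧ p ≠ 2 ∧ ¬ Good δ A B p)
    (fun M hM => h A B hA hB M hM) (fun n M _ _ _ h4 h5 => ⟨h4, h5⟩) N hN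
  refine le_trans (le_of_eq ?_) key
  congr 2
  ext m
  simp only [Set.mem_ofPred_eq]
  push Not
  constructor
  · rintro ⟨a1, a2, w, hw, p, a3, a4, a5, a6⟩
    exact ⟨a1, a2, w, hw, p, a3.one_lt.le, a5, a3, a4, a6⟩
  · rintro ⟨a1, a2, w, hw, p, _, a5, a3, a4, a6⟩
    exact ⟨a1, a2, w, hw, p, a3, a4, a5, a6⟩

end Pool.Agent.Results.MP_f6e9a2_nt.DivisorSums
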