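import Pool.Agent.U59.WT.Final

/-!
What bounds of Weil type for complete sums say about the sums of `f(a + b)` over two sets: the exact
region of exponents in which they imply a power saving, and, for every single pair of sets with
`|A + B| = O(√p)`, a nearly multiplicative function close to a given character which has all these
bounds and is equal to one on `A + B`.
-/

set_option autoImplicit false

namespace Pool.Agent.Results.MP_f6e9a2_nt.WeilBoundsThreshold

open Finset Polynomial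
open scoped Pointwise

/-- some value is taken exactly once by `b` and `c` together -/
def Once {p r : ℕ} (b c : Fin r → ZMod p) : Prop :=
  ∃ v : ZMod p, {i | b i = v}.ncard + {i | c i = v}.ncard = 1

/-- `|f| ≤ 1`, and the complete sums of the products of `r` shifts of `f` and `r` shifts of its
conjugate, one of them different from all the others, are at most `M r √p`, for all `r ≥ 1` -/
def WeilType {p : ℕ} [NeZero p] (M : ℕ → ℝ) (f : ZMod p → ℂ) : Prop := (∀ x, ‖f x‖ ≤ 1) ∧
  ∀ r : ℕ, 1 ≤ r → ∀ b c : Fin r → ZMod p, Once b c →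
    ‖∑ x : ZMod p, (∏ i, f (x + b i)) * ∏ i, (starRingEnd ℂ) (f (x + c i))‖ ≤ M r * Real.sqrt p

/-- all complete sums of products of values at nonconstant polynomials, with any bounded weights `g`,
are the same for `f` and `h` up to `K` times the total degree times `√p` -/
def Close {p : ℕ} [Fact p.Prime] (K : ℝ) (f h : ZMod p → ℂ) : Prop :=
  ∀ (n m : ℕ) (P : Fin n → (ZMod p)[X]) (Q : Fin m → (ZMod p)[X]), (∀ i, 1 ≤ (P i).natDegree) →
    (∀ i, 1 ≤ (Q i).natDegree) → ∀ g : ZMod p → ℂ, (∀ x, ‖g x‖ ≤ 1) →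
      ‖∑ x, g x * ((∏ i, f ((P i).eval x)) * ∏ i, (starRingEnd ℂ) (f ((Q i).eval x))) -
        ∑ x, g x * ((∏ i, h ((P i).eval x)) * ∏ i, (starRingEnd ℂ) (h ((Q i).eval x)))‖ ≤
        K * ((∑ i, (P i).natDegree + ∑ i, (Q i).natDegree : ℕ) : ℝ) * Real.sqrt p

/-- `f (x y) = f x f y` for all pairs but at most `K p ^ (3/2)` -/
def NearlyMult {p : ℕ} [Fact p.Prime] (K : ℝ) (f : ZMod p → ℂ) : Prop :=
  (({xy : ZMod p × ZMod p | f (xy.1 * xy.2) ≠ f xy.1 * f xy.2}.ncard : ℕ) : ℝ) ≤ K * (p * Real.sqrt p)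

/-- a power saving for all large `p`, all functions `f` of the class and all sets with at least `p ^ α`
and `p ^ β` elements -/
def Implied (F : ∀ p : ℕ, (ZMod p → ℂ) → Prop) (α β : ℝ) : Prop :=
  ∃ δ : ℝ, 0 < δ ∧ ∃ p₀ : ℕ, ∀ (p : ℕ) [Fact p.Prime], p₀ ≤ p → ∀ f : ZMod p → ℂ, F p f →
    ∀ A B : Finset (ZMod p), (p : ℝ) ^ α ≤ A.card → (p : ℝ) ^ β ≤ B.card →
      ‖∑ a ∈ A, ∑ b ∈ B, f (a + b)‖ ≤ (p : ℝ) ^ (-δ) * (A.card * B.card)

/-- the functions with bounds of Weil type -/
def WeilClass (M : ℕ → ℝ) (p : ℕ) (f : ZMod p → ℂ) : Prop := ∀ _ : Fact p.Prime, WeilType M f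

/-- those of them which are close to the character `χ p` and nearly multiplicative -/
def NearClass (χ : ∀ p : ℕ, MulChar (ZMod p) ℂ) (M : ℕ → ℝ) (p : ℕ) (f : ZMod p → ℂ) : Prop :=
  ∀ _ : Fact p.Prime, WeilType M f ∧ Close 6 f (fun x => χ p x) ∧ NearlyMult 9 f

/-- (1) Nontrivial characters modulo `p` have bounds of Weil type with `M r = 2 r`.

(2) For every prime `p`, every nontrivial character `χ` modulo `p` and ALL sets `A`, `B` with
`|A + B| ≤ K √p` there is a function `f`, equal to `χ` outside of `A + B` and to one on `A + B`, which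
has bounds of Weil type with `M r = (2 + 4 K) r`, whose complete sums for all nonconstant polynomials
and all bounded weights are those of `χ` up to `2 K √p` times the total degree, and which is
multiplicative up to `3 K p ^ (3/2)` pairs. The sum of `f (a + b)` over `A × B` is `|A| |B|`.

(3) If `χ` is the Legendre symbol, `S` any set with at most `K √p` elements and `f` equal to one on `S`
and to `χ` outside, then `|∑_x ∏ f(P_i(x))| ≤ (1 + 2 K) (∑ deg P_i) √p` for all nonconstant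
polynomials `P_i` whose product is not a constant times a square.

(4) Let `M r ≥ 14 r`, `χ p` a nontrivial character for every odd prime `p` and `α, β > 0`. The bounds
of Weil type with the constants `M r` imply a power saving for all sets with at least `p ^ α` and
`p ^ β` elements if and only if `max (α, β) > 1/2`. The same is true if in addition the functions are
assumed to be close to `χ p` and nearly multiplicative. -/
theorem result :
    (∀ (p : ℕ) [Fact p.Prime] (χ : MulChar (ZMod p) ℂ), χ ≠ 1 →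
      WeilType (fun r => 2 * (r : ℝ)) (fun x => χ x)) ∧
    (∀ (p : ℕ) [Fact p.Prime] (χ : MulChar (ZMod p) ℂ), χ ≠ 1 → ∀ (K : ℝ) (A B : Finset (ZMod p)),
      ((A + B).card : ℝ) ≤ K * Real.sqrt p → ∃ f : ZMod p → ℂ,
        (∀ x ∉ A + B, f x = χ x) ∧ (∀ x ∈ A + B, f x = 1) ∧
        ∑ a ∈ A, ∑ b ∈ B, f (a + b) = A.card * B.card ∧
        WeilType (fun r => (2 + 4 * K) * (r : ℝ)) f ∧ Close (2 * K) f (fun x => χ x) ∧
        NearlyMult (3 * K) f) ∧
    (∀ (p : ℕ) [Fact p.Prime], p ≠ 2 → ∀ (S : Finset (ZMod p)) (K : ℝ),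
      (S.card : ℝ) ≤ K * Real.sqrt p → ∀ f : ZMod p → ℂ, (∀ x ∈ S, f x = 1) →
        (∀ x ∉ S, f x = ((quadraticChar (ZMod p) x : ℤ) : ℂ)) →
        ∀ (n : ℕ) (P : Fin n → (ZMod p)[X]), (∀ i, 1 ≤ (P i).natDegree) →
          (∀ (c : ZMod p) (h : (ZMod p)[X]), ∏ i, P i ≠ C c * h ^ 2) →
          ‖∑ x : ZMod p, ∏ i, f ((P i).eval x)‖ ≤
            (1 + 2 * K) * ((∑ i, (P i).natDegree : ℕ) : ℝ) * Real.sqrt p) ∧
    (∀ M : ℕ → ℝ, (∀ r : ℕ, 1 ≤ r → 14 * (r : ℝ) ≤ M r) →
      ∀ χ : ∀ p : ℕ, MulChar (ZMod p) ℂ, (∀ p : ℕ, p.Prime → p ≠ 2 → χ p ≠ 1) →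
        ∀ α β : ℝ, 0 < α → 0 < β →
          (Implied (WeilClass M) α β ↔ 1 / 2 < max α β) ∧
          (Implied (NearClass χ M) α β ↔ 1 / 2 < max α β)) := by
  refine ⟨fun p _ χ hχ => Pool.Agent.U59.WT.char_weil χ hχ,
    fun p _ χ hχ K A B hAB => Pool.Agent.U59.WT.pair p χ hχ K A B hAB,
    fun p _ hp2 S K hS f h1 h2 n P hP hns => ?_,
    fun M hM χ hχ α β hα hβ => Pool.Agent.U59.WT.exact χ hχ M hM α β hα hβ⟩
  have hf : f = Pool.Agent.U59.WT.patch (fun x => ((quadraticChar (ZMod p) x : ℤ) : ℂ)) S := by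
    funext x
    by_cases hx : x ∈ S
    · rw [h1 x hx, Pool.Agent.U59.WT.patch_mem _ _ x hx]
    · rw [h2 x hx, Pool.Agent.U59.WT.patch_not_mem _ _ x hx]
  rw [hf]
  exact Pool.Agent.U59.WT.legendre_weil hp2 S K hS n P hP hns

end Pool.Agent.Results.MP_f6e9a2_nt.WeilBoundsThreshold
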